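import Pool.Agent.Q150.FSP.Top

/-!
# MP_0a42ff_gt: final-subset spaces of narrow order-scattered posets are canonically Skula

For every poset `P` all of whose antichains are finite and which contains no copy of the rationals,
the compact space `FS P` of final subsets of `P` has a canonical clopen selector.

* `Q150.FSP.Scat`: `FS P` is scattered (Pouzet's theorem).  Call `I ⊆ P` large if some subset of it
  has a nonempty family of final subsets without isolated member.  Two small sets have a small
  union; if all `J \ ↑p` (or all `J \ ↓p`), `p ∈ J`, are small, then `J` is small.  If `P` is large,
  the finiteness of antichains gives a large `I` in which the elements incomparable to a given one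
  form small sets; then every large subset `J` of `I` has an element `p` such that both `J ∩ (<p)`
  and `J ∩ (>p)` are large, and the rationals embed into `P`.
* `Q150.FSP.Top`: the Cantor-Bendixson rank of the points of `FS P` is a rank function in the sense
  of `Helper718.CWG.Core`, and the selector constructed there is canonical.
-/

open Set

universe u

namespace Pool.Agent.Results.MP_0a42ff_gt.CanonicallySkula

open Pool.Agent.Q150.FSP

theorem result (P : Type u) [PartialOrder P]
    (narrow : ∀ A : Set P, IsAntichain (· ≤ ·) A → A.Finite)
    (orderScattered : IsEmpty (ℚ ↪o P)) :
    ∃ U : FS P → Set (FS P), IsCanonicalSelector U :=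
  canonical narrow (sm_univ narrow orderScattered _ Subset.rfl)

end Pool.Agent.Results.MP_0a42ff_gt.CanonicallySkula
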